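import Mathlib
import Pool.Agent.K9h9.T3.Rel

/-!
# Divisibility of the approximation forms when the exponent divides the modulus
-/

set_option autoImplicit false

namespace Pool.Agent.K9h9.RD

open Finset

lemma geom_sub {l : ℕ} {m u v : ℤ} (huv : m ∣ u - v) :
    m ∣ ∑ i ∈ range l, u ^ i * v ^ (l - 1 - i) - l * v ^ (l - 1) := by
  have h1 : (l : ℤ) * v ^ (l - 1) = ∑ i ∈ range l, v ^ i * v ^ (l - 1 - i) := by
    rw [sum_congr rfl (g := fun _ => v ^ (l - 1)) (fun i hi => by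
      have := mem_range.mp hi
      rw [← pow_add]
      congr 1
      omega), sum_const, card_range, nsmul_eq_mul]
  rw [h1, ← sum_sub_distrib]
  refine dvd_sum ?_
  intro i _
  rw [← sub_mul]
  exact (huv.trans (sub_dvd_pow_sub_pow u v i)).mul_right _

lemma lte {l e : ℕ} (hl : l ≠ 0) {m u v : ℤ} (huv : (l : ℤ) * m ∣ u - v) (hcop : IsCoprime m v)
    (hpow : (l : ℤ) * m ^ e ∣ u ^ l - v ^ l) : m ^ e ∣ u - v := by
  obtain ⟨G, hG⟩ : ∃ G : ℤ, G = ∑ i ∈ range l, u ^ i * v ^ (l - 1 - i) := ⟨_, rfl⟩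
  have hmul : (u - v) * G = u ^ l - v ^ l := by
    rw [hG]
    exact (Commute.all u v).mul_geom_sum₂ l
  obtain ⟨y, hy⟩ := geom_sub (l := l) huv
  rw [← hG] at hy
  have hG2 : G = l * (v ^ (l - 1) + m * y) := by linear_combination hy
  rw [← hmul, hG2] at hpow
  have h1 : (l : ℤ) * m ^ e ∣ l * ((u - v) * (v ^ (l - 1) + m * y)) := by
    have h2 : (l : ℤ) * ((u - v) * (v ^ (l - 1) + m * y)) = (u - v) * (l * (v ^ (l - 1) + m * y)) := by
      ring
    rw [h2]
    exact hpow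
  have h2 : m ^ e ∣ (u - v) * (v ^ (l - 1) + m * y) :=
    (mul_dvd_mul_iff_left (by exact_mod_cast hl)).mp h1
  exact ((IsCoprime.add_mul_left_right hcop.pow_right y).pow_left).dvd_of_dvd_mul_right h2

lemma beta_one {q : ℕ} (hq : q.Prime) (g : ℤ) : beta q g 1 = q * g := by
  have h1 := beta_cast hq g 1
  rw [bq_one_right] at h1
  have hq0 : (q : ℚ) ≠ 0 := by exact_mod_cast hq.ne_zero
  have h2 : (beta q g 1 : ℚ) = ((q * g : ℤ) : ℚ) := by
    rw [h1]
    push_cast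
    field_simp
  exact_mod_cast h2

lemma pw_cast {S : Type*} [CommRing S] (q e : ℕ) (T g : ℤ) :
    ((pw q e T g : ℤ) : S) = pw q e (T : S) g := by
  rw [pw, pw]
  push_cast
  rfl

/-- the vanishing of the form -/
lemma Nk_cast {S : Type*} [CommRing S] {q e c L K M k : ℕ} (hq : q.Prime) {τ : S} (hτe : τ ^ e = 0)
    {t : ℕ → ℕ → ℤ} (ht : Van q c L K M t) (hek : e + k ≤ M) {b B0 X A : ℤ}
    (hX : (X : S) = pw q e τ q * A) (hb : (b : S) = pw q e τ c * B0) :
    ((Nk q c L K t b B0 X A k : ℤ) : S) = 0 := by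
  have hmain : ((Nk q c L K t b B0 X A k : ℤ) : S) =
      (B0 : S) ^ (L - 1) * A ^ (K - 1) *
        ∑ n ∈ range e, τ ^ n * ((∑ i ∈ range L, ∑ j ∈ range K,
          t i j * beta q (i * c + j * q) k * beta q (i * c + j * q) n : ℤ) : S) := by
    rw [Nk]
    push_cast
    simp only [mul_sum]
    conv_rhs => rw [Finset.sum_comm]
    refine sum_congr rfl ?_
    intro i hi
    conv_rhs => rw [Finset.sum_comm]
    refine sum_congr rfl ?_
    intro j hj
    have hi' := mem_range.mp hi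
    have hj' := mem_range.mp hj
    have h1 : (b : S) ^ i * B0 ^ (L - 1 - i) * (X ^ j * A ^ (K - 1 - j)) =
        B0 ^ (L - 1) * A ^ (K - 1) * pw q e τ (i * c + j * q) := by
      rw [pw_add hq hτe, pw_pow hq hτe, pw_pow hq hτe, hX, hb]
      have h2 : (B0 : S) ^ (L - 1) = B0 ^ i * B0 ^ (L - 1 - i) := by
        rw [← pow_add]
        congr 1
        omega
      have h3 : (A : S) ^ (K - 1) = A ^ j * A ^ (K - 1 - j) := by
        rw [← pow_add]
        congr 1
        omega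
      rw [h2, h3]
      ring
    rw [h1, pw, mul_sum, mul_sum]
    refine sum_congr rfl ?_
    intro n _
    ring
  rw [hmain]
  rw [sum_eq_zero, mul_zero]
  intro n hn
  have := mem_range.mp hn
  rw [ht.prod hq (by omega)]
  simp

theorem dvd_Nk_r {q : ℕ} (hq : q.Prime) {c L K M : ℕ} {t : ℕ → ℕ → ℤ} (ht : Van q c L K M t)
    {D : ℕ} (hqD : q ∣ D) {b B0 X A : ℤ} (hDA : IsCoprime (D : ℤ) A) (hDB : IsCoprime (D : ℤ) B0)
    (hXA : (q : ℤ) ^ 2 * D ∣ X - A) (hbB : (q : ℤ) * D ∣ b - B0)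
    (hpow : (q : ℤ) * D ^ M ∣ b ^ q * A ^ c - X ^ c * B0 ^ q) (k : ℕ) :
    (D : ℤ) ^ (M - k) ∣ Nk q c L K t b B0 X A k := by
  obtain ⟨e, he⟩ : ∃ e, e = M - k := ⟨_, rfl⟩
  rw [← he]
  rcases Nat.eq_zero_or_pos e with he0 | he0
  · rw [he0, pow_zero]
    exact one_dvd _
  have hqDZ : (q : ℤ) ∣ D := by exact_mod_cast hqD
  have hcast : ∀ (n : ℕ) (z : ℤ), ((n : ℤ) ∣ z) ↔ ((z : ZMod n) = 0) := fun n z =>
    (ZMod.intCast_zmod_eq_zero_iff_dvd z n).symm
  obtain ⟨n0, hn0⟩ : ∃ n0 : ℕ, n0 = q * D ^ e := ⟨_, rfl⟩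
  have hn0Z : (n0 : ℤ) = q * (D : ℤ) ^ e := by rw [hn0]; push_cast; rfl
  have hcopn : ∀ z : ℤ, IsCoprime (D : ℤ) z → IsCoprime (n0 : ℤ) z := by
    intro z hz
    rw [hn0Z]
    exact (IsCoprime.of_isCoprime_of_dvd_left hz hqDZ).mul_left hz.pow_left
  obtain ⟨a1, iA, hiA⟩ := hcopn A hDA
  obtain ⟨b1, iB, hiB⟩ := hcopn B0 hDB
  obtain ⟨m, hm⟩ := hXA
  have hqDn0 : (q : ℤ) * D ∣ n0 := by
    rw [hn0Z]
    exact mul_dvd_mul_left _ (dvd_pow_self _ (by omega))
  -- the local parameter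
  obtain ⟨T, hT⟩ : ∃ T : ℤ, T = D * m * iA := ⟨_, rfl⟩
  obtain ⟨v, hv⟩ : ∃ v : ℤ, v = pw q (e + 1) T c := ⟨_, rfl⟩
  obtain ⟨u, hu⟩ : ∃ u : ℤ, u = b * iB := ⟨_, rfl⟩
  have hDT : (D : ℤ) ∣ T := by rw [hT, mul_assoc]; exact dvd_mul_right _ _
  have hn0T : (n0 : ℤ) ∣ T ^ (e + 1) := by
    have h1 : (D : ℤ) ^ (e + 1) ∣ T ^ (e + 1) := pow_dvd_pow_of_dvd hDT _
    refine Dvd.dvd.trans ?_ h1
    rw [hn0Z, pow_succ']
    exact mul_dvd_mul_right hqDZ _
  have hAiA : ∀ n : ℕ, (n : ℤ) ∣ n0 → (A : ZMod n) * iA = 1 := by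
    intro n hn
    have h1 : (n : ℤ) ∣ A * iA - 1 := by
      have : A * iA - 1 = -(a1 * n0) := by linear_combination hiA
      rw [this]
      exact dvd_neg.mpr (hn.mul_left _)
    rw [hcast] at h1
    push_cast at h1
    exact sub_eq_zero.mp h1
  have hBiB : ∀ n : ℕ, (n : ℤ) ∣ n0 → (B0 : ZMod n) * iB = 1 := by
    intro n hn
    have h1 : (n : ℤ) ∣ B0 * iB - 1 := by
      have : B0 * iB - 1 = -(b1 * n0) := by linear_combination hiB
      rw [this]
      exact dvd_neg.mpr (hn.mul_left _)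
    rw [hcast] at h1
    push_cast at h1
    exact sub_eq_zero.mp h1
  have hXA' : X = A + q ^ 2 * D * m := by linear_combination hm
  -- `u ^ q = v ^ q` modulo `n0`
  have hpow1 : (q : ℤ) * (D : ℤ) ^ e ∣ u ^ q - v ^ q := by
    rw [← hn0Z, hcast]
    have hτ : (T : ZMod n0) ^ (e + 1) = 0 := by
      have := (hcast n0 _).mp hn0T
      push_cast at this
      exact this
    have hσ : pw q (e + 1) (T : ZMod n0) q = X * iA := by
      rw [pw_self hq hτ, hXA', hT]
      push_cast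
      linear_combination -(hAiA n0 dvd_rfl)
    have hvq : (v : ZMod n0) ^ q = (X * iA) ^ c := by
      rw [hv, pw_cast, ← pw_pow hq hτ, mul_comm, pw_pow hq hτ, hσ]
    have huq : (u : ZMod n0) ^ q = (X * iA) ^ c := by
      have h1 : (n0 : ℤ) ∣ b ^ q * A ^ c - X ^ c * B0 ^ q := by
        rw [hn0Z]
        exact (mul_dvd_mul_left _ (pow_dvd_pow _ (by omega))).trans hpow
      rw [hcast] at h1
      push_cast at h1
      rw [hu]
      push_cast
      calc ((b : ZMod n0) * iB) ^ q = b ^ q * iB ^ q * (A * iA) ^ c := by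
            rw [hAiA n0 dvd_rfl, one_pow, mul_one, mul_pow]
        _ = (b ^ q * A ^ c - X ^ c * B0 ^ q) * (iB ^ q * iA ^ c) +
            (X * iA) ^ c * (B0 * iB) ^ q := by
            rw [mul_pow, mul_pow, mul_pow]
            ring
        _ = _ := by rw [h1, hBiB n0 dvd_rfl, one_pow, zero_mul, zero_add, mul_one]
    push_cast
    rw [huq, hvq, sub_self]
  have hu1 : (q : ℤ) * D ∣ u - 1 := by
    have h1 : u - 1 = (b - B0) * iB - b1 * n0 := by
      rw [hu]
      linear_combination hiB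
    rw [h1]
    exact dvd_sub (hbB.mul_right _) (hqDn0.mul_left _)
  have hv1 : (q : ℤ) * D ∣ v - 1 := by
    have h1 : v - 1 = ∑ n ∈ range e, beta q c (n + 1) * T ^ (n + 1) := by
      rw [hv, pw, sum_range_succ', beta_zero_right hq]
      simp
    rw [h1]
    refine dvd_sum ?_
    intro n _
    rcases Nat.eq_zero_or_pos n with h0 | h0
    · rw [h0, zero_add, beta_one hq, pow_one]
      have h2 : (q : ℤ) * c * T = c * (q * T) := by ring
      rw [h2]
      exact (mul_dvd_mul_left _ hDT).mul_left _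
    · refine Dvd.dvd.mul_left ?_ _
      have h2 : (D : ℤ) ^ 2 ∣ T ^ (n + 1) :=
        (pow_dvd_pow_of_dvd hDT 2).trans (pow_dvd_pow _ (by omega))
      refine Dvd.dvd.trans ?_ h2
      rw [pow_two]
      exact mul_dvd_mul_right hqDZ _
  have huv : (q : ℤ) * D ∣ u - v := by
    have := dvd_sub hu1 hv1
    rwa [sub_sub_sub_cancel_right] at this
  have hcopv : IsCoprime (D : ℤ) v := by
    obtain ⟨w, hw⟩ := hv1
    refine ⟨-(q * w), 1, ?_⟩
    linear_combination hw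
  have hfin : (D : ℤ) ^ e ∣ u - v := lte hq.ne_zero huv hcopv hpow1
  -- modulo `D ^ e`
  have hDen0 : (((D ^ e : ℕ) : ℤ)) ∣ n0 := by
    rw [hn0Z]
    push_cast
    exact dvd_mul_left _ _
  have hcast2 : ∀ z : ℤ, ((D : ℤ) ^ e ∣ z) ↔ ((z : ZMod (D ^ e)) = 0) := by
    intro z
    rw [← hcast]
    push_cast
    rfl
  have hτe : (T : ZMod (D ^ e)) ^ e = 0 := by
    have := (hcast2 (T ^ e)).mp (pow_dvd_pow_of_dvd hDT e)
    push_cast at this
    exact this
  rw [hcast2]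
  refine Nk_cast hq hτe ht (by omega) ?_ ?_
  · rw [pw_self hq hτe, hXA', hT]
    push_cast
    linear_combination (-((q : ZMod (D ^ e)) ^ 2 * D * m)) * (hAiA (D ^ e) hDen0)
  · have h1 : (v : ZMod (D ^ e)) = pw q e (T : ZMod (D ^ e)) c := by
      rw [hv, pw_cast, pw, pw, sum_range_succ, hτe, mul_zero, add_zero]
    have h2 : (u : ZMod (D ^ e)) = v := by
      have := (hcast2 (u - v)).mp hfin
      push_cast at this
      exact sub_eq_zero.mp this
    rw [← h1, ← h2, hu]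
    push_cast
    linear_combination (-(b : ZMod (D ^ e))) * (hBiB (D ^ e) hDen0)

end Pool.Agent.K9h9.RD
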