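import Mathlib
import Pool.Agent.K9h9.RD.Div

/-!
# The lower bound for the height, with the divisibility as a hypothesis
-/

set_option autoImplicit false

namespace Pool.Agent.K9h9.RD

open Finset Pool.Agent.K9h9.T3

theorem main_ineq_r {q : ℕ} (hq : q.Prime) {c L K M G N : ℕ} {Kf : ℕ → ℕ} (hc : ¬ q ∣ c)
    (hL : 1 ≤ L) (hLq : L ≤ q) (hKf : ∀ i < L, Kf i ≤ K) (hN : N = ∑ i ∈ range L, Kf i)
    (hM : 1 ≤ M) (hMN : M < N) (hG : (L - 1) * c + (K - 1) * q ≤ G * q)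
    {b B0 X A : ℤ} (hb : b ≠ 0) (hB0 : B0 ≠ 0) (hX : X ≠ 0) (hA : A ≠ 0) (hXA : X ≠ A)
    {D : ℕ} (hdvdN : ∀ t : ℕ → ℕ → ℤ, Van q c L K M t → ∀ k, (D : ℤ) ^ (M - k) ∣
      Nk q c L K t b B0 X A k)
    {W : ℤ} (hW0 : W ≠ 0) (hWD : IsCoprime (D : ℤ) W)
    (hWdvd : ∀ i < L, ∀ j < Kf i, j < K → W ∣ B0 ^ (L - 1 - i) * A ^ (K - 1 - j)) {H : ℝ} (hH0 : 0 ≤ H)
    (hH : ∀ i < L, ∀ j < Kf i, j < K → |(b : ℝ)| ^ i * |(B0 : ℝ)| ^ (L - 1 - i) *
      (|(X : ℝ)| ^ j * |(A : ℝ)| ^ (K - 1 - j)) ≤ |(W : ℝ)| * H) :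
    ∃ e : ℕ, e ≤ M ∧ M ≤ e + (N + L - M - 2) ∧ (D : ℝ) ^ e ≤ CT q L K N M G * H := by
  obtain ⟨t, ht0, hts, ht, hB⟩ := exists_coeffs_tri hq (c := c) (L := L) (K := K) (M := M) (G := G)
    hKf hN hM hMN hG
  obtain ⟨k, hk, hNk⟩ := exists_Nk_ne_zero_tri hq hc hLq hN hMN ht0 hts ht hb hB0 hX hA hXA
  have hdvd := hdvdN t ht k
  have hWN : W ∣ Nk q c L K t b B0 X A k := by
    rw [Nk]
    refine dvd_sum ?_
    intro i hi
    refine dvd_sum ?_
    intro j hj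
    rw [mem_range] at hi hj
    rcases Nat.lt_or_ge j (Kf i) with h | h
    · obtain ⟨v, hv⟩ := hWdvd i hi j h hj
      refine ⟨t i j * beta q (i * c + j * q) k * (b ^ i * X ^ j) * v, ?_⟩
      linear_combination (t i j * beta q (i * c + j * q) k * (b ^ i * X ^ j)) * hv
    · rw [hts _ _ h]
      simp
  have hDW : (D : ℤ) ^ (M - k) * W ∣ Nk q c L K t b B0 X A k :=
    (hWD.pow_left).mul_dvd hdvd hWN
  have hWpos : (0 : ℝ) < |(W : ℝ)| := abs_pos.mpr (by exact_mod_cast hW0)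
  have hle : (D : ℝ) ^ (M - k) * |(W : ℝ)| ≤ |(Nk q c L K t b B0 X A k : ℝ)| := by
    have h1 : |(D : ℤ) ^ (M - k) * W| ≤ |Nk q c L K t b B0 X A k| :=
      Int.le_of_dvd (abs_pos.mpr hNk) ((abs_dvd _ _).mpr ((dvd_abs _ _).mpr hDW))
    rw [abs_mul, abs_pow, Nat.abs_cast] at h1
    exact_mod_cast h1
  have h1 := abs_Nk_le_tri hq hG hts hB (mul_nonneg hWpos.le hH0) hH k
  obtain ⟨B, hBdef⟩ : ∃ B : ℝ, B = ((N : ℕ) * ((q : ℝ) ^ (2 * M) * 2 ^ G)) ^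
    ((M : ℝ) / ((N : ℕ) - M)) := ⟨_, rfl⟩
  rw [← hBdef] at hB h1
  have hB' : 0 ≤ B := (abs_nonneg _).trans (hB 0 0)
  have hq1 : (1 : ℝ) ≤ q := by exact_mod_cast hq.one_lt.le
  have hqk : (q : ℝ) ^ (2 * k) ≤ (q : ℝ) ^ (2 * (N + L - M - 2)) :=
    pow_le_pow_right₀ hq1 (by omega)
  refine ⟨M - k, by omega, by omega, ?_⟩
  rw [CT, ← hBdef]
  have h2 : (L * K : ℕ) * B * ((q : ℝ) ^ (2 * k) * 2 ^ G) * (|(W : ℝ)| * H) ≤
      ((L * K : ℕ) * B * ((q : ℝ) ^ (2 * (N + L - M - 2)) * 2 ^ G) * H) * |(W : ℝ)| := by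
    calc (L * K : ℕ) * B * ((q : ℝ) ^ (2 * k) * 2 ^ G) * (|(W : ℝ)| * H) ≤
        (L * K : ℕ) * B * ((q : ℝ) ^ (2 * (N + L - M - 2)) * 2 ^ G) * (|(W : ℝ)| * H) := by gcongr
      _ = _ := by ring
  exact le_of_mul_le_mul_right (hle.trans (h1.trans h2)) hWpos

/-- The height lower bound. -/
theorem rel_r (θ ε : ℝ) (hθ : 0 ≤ θ) (hε : 0 < ε) (L R κ : ℕ) (hL : 1 ≤ L) : ∃ D₀ P₀ : ℕ,
    ∀ (b B0 X A : ℤ) (r q p D : ℕ) (σ : ℕ → ℕ) (H lam : ℝ), D₀ ≤ D → P₀ ≤ p → r.Prime → L ≤ r →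
      r ≤ R → ¬ r ∣ q → q ≤ κ * p → b ≠ 0 → B0 ≠ 0 → X ≠ 0 → A ≠ 0 → X ≠ A →
      (∀ K (t : ℕ → ℕ → ℤ), Van r q L K p t → ∀ k, (D : ℤ) ^ (p - k) ∣ Nk r q L K t b B0 X A k) →
      (D : ℝ) ≤ H ^ 2 → 1 ≤ H → 0 ≤ lam →
      (∀ i < L, (σ i : ℝ) ≤ lam * i + 1) → lam * Real.log H ≤ θ * p * Real.log D / r →
      (∀ n : ℕ, ∃ W : ℤ, W ≠ 0 ∧ IsCoprime (D : ℤ) W ∧ ∀ i < L, ∀ j, σ i + j ≤ n →
        W ∣ B0 ^ (L - 1 - i) * A ^ (n - j) ∧
        |(b : ℝ)| ^ i * |(B0 : ℝ)| ^ (L - 1 - i) * (|(X : ℝ)| ^ j * |(A : ℝ)| ^ (n - j)) ≤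
          |(W : ℝ)| * (2 ^ L * H ^ n)) →
      (L * (1 - θ * (L - 1) / (2 * r)) - ε) * Real.log D ≤ Real.log H := by
  obtain ⟨g, hg⟩ : ∃ g : ℕ, g = ⌈8 * L / ε⌉₊ + 1 := ⟨_, rfl⟩
  have hg1 : 1 ≤ g := by rw [hg]; exact Nat.le_add_left _ _
  have hεg : 8 * (L : ℝ) ≤ ε * g := by
    have h1 : 8 * (L : ℝ) / ε ≤ g := by
      rw [hg]
      push_cast
      exact (Nat.le_ceil _).trans (by linarith)
    rw [div_le_iff₀ hε] at h1
    linarith
  obtain ⟨κ₁, hκ₁⟩ : ∃ κ₁ : ℕ, κ₁ = L * κ + 4 + ⌈θ⌉₊ * L + L + 4 := ⟨_, rfl⟩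
  obtain ⟨C₁, hC₁⟩ : ∃ C₁ : ℝ, C₁ = (4 * g + 12) * (κ₁ * R) := ⟨_, rfl⟩
  have hC₁0 : 0 ≤ C₁ := by rw [hC₁]; positivity
  refine ⟨⌈Real.exp ((2 * (L * C₁ + L * L) + 1) / ε)⌉₊ + 2, ⌈12 * (L : ℝ) ^ 2 / ε⌉₊ + L + 1, ?_⟩
  intro b B0 X A r q p D σ H lam hD hp hr hLr hrR hrq hqp hb hB0 hX hA hXA hdvdN hDH hH1
    hlam0 hσ hlam hW
  have hLR : (1 : ℝ) ≤ L := by exact_mod_cast hL
  have hD2 : 2 ≤ D := by omega
  have hDR : (2 : ℝ) ≤ D := by exact_mod_cast hD2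
  have hD0R : (0 : ℝ) < D := by linarith
  obtain ⟨ℓ, hℓ⟩ : ∃ ℓ, ℓ = Real.log D := ⟨_, rfl⟩
  have hℓlow : (2 * (L * C₁ + L * L) + 1) / ε ≤ ℓ := by
    rw [hℓ, Real.le_log_iff_exp_le hD0R]
    have h1 : ((⌈Real.exp ((2 * (L * C₁ + L * L) + 1) / ε)⌉₊ + 2 : ℕ) : ℝ) ≤ D := by exact_mod_cast hD
    push_cast at h1
    linarith [Nat.le_ceil (Real.exp ((2 * (L * C₁ + L * L) + 1) / ε))]
  have hℓ0 : 0 < ℓ := by
    refine lt_of_lt_of_le ?_ hℓlow
    positivity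
  have hpP : ⌈12 * (L : ℝ) ^ 2 / ε⌉₊ ≤ p := by omega
  have hpL : L < p := by omega
  have hp1 : 1 ≤ p := by omega
  have hpR : (1 : ℝ) ≤ p := by exact_mod_cast hp1
  have hP : 12 * (L : ℝ) ^ 2 ≤ ε * p := by
    have h1 : 12 * (L : ℝ) ^ 2 / ε ≤ p := (Nat.le_ceil _).trans (by exact_mod_cast hpP)
    rw [div_le_iff₀ hε] at h1
    linarith
  have hr2 := hr.two_le
  have hrR2 : (2 : ℝ) ≤ r := by exact_mod_cast hr2
  have hrpos : (0 : ℝ) < r := by linarith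
  by_contra hcon
  push Not at hcon
  obtain ⟨Y, hY⟩ : ∃ Y, Y = Real.log H := ⟨_, rfl⟩
  rw [← hY, ← hℓ] at hcon hlam
  have hH0 : 0 < H := by linarith
  have hYℓ : ℓ ≤ 2 * Y := by
    rw [hℓ, hY]
    have h1 := Real.log_le_log hD0R hDH
    rw [Real.log_pow] at h1
    push_cast at h1
    exact h1
  have hY0 : 0 ≤ Y := by linarith
  have hlamp : lam ≤ θ * p := by
    have h1 : lam * ℓ ≤ θ * p * ℓ := by
      calc lam * ℓ ≤ lam * (2 * Y) := mul_le_mul_of_nonneg_left hYℓ hlam0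
        _ = 2 * (lam * Y) := by ring
        _ ≤ 2 * (θ * p * ℓ / r) := by linarith
        _ = (2 / r) * (θ * p * ℓ) := by ring
        _ ≤ 1 * (θ * p * ℓ) := by
            apply mul_le_mul_of_nonneg_right _ (by positivity)
            rw [div_le_one hrpos]
            exact hrR2
        _ = _ := one_mul _
    exact le_of_mul_le_mul_right h1 hℓ0
  -- the choice of `n`
  obtain ⟨N', hN'⟩ : ∃ N' : ℕ → ℕ, N' = fun n => ∑ i ∈ range L, (n + 1 - σ i) := ⟨_, rfl⟩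
  obtain ⟨d, hd⟩ : ∃ d, d = p / g := ⟨_, rfl⟩
  have hdR : (d : ℝ) ≤ (p : ℝ) / g := by rw [hd]; exact Nat.cast_div_le
  obtain ⟨N₀, hN₀⟩ : ∃ N₀, N₀ = p + d + 1 := ⟨_, rfl⟩
  have hex : ∃ n, N₀ ≤ N' n := by
    refine ⟨N₀ + σ 0, ?_⟩
    rw [hN']
    have h1 := single_le_sum (s := range L) (f := fun i => N₀ + σ 0 + 1 - σ i)
      (fun _ _ => Nat.zero_le _) (mem_range.mpr (show 0 < L by omega))
    simp only at h1 ⊢
    omega
  classical
  obtain ⟨n, hn1, hn2⟩ : ∃ n, N₀ ≤ N' n ∧ ∀ m < n, N' m < N₀ := by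
    refine ⟨Nat.find hex, Nat.find_spec hex, ?_⟩
    intro m hm
    have := Nat.find_min hex hm
    omega
  have hN'0 : N' 0 ≤ L := by
    rw [hN']
    simp only
    calc ∑ i ∈ range L, (0 + 1 - σ i) ≤ ∑ i ∈ range L, 1 := sum_le_sum (fun i _ => by omega)
      _ = L := by simp
  have hn0 : 0 < n := by
    by_contra h
    have h1 : n = 0 := by omega
    rw [h1] at hn1
    omega
  have hstep : N' n ≤ N' (n - 1) + L := by
    rw [hN']
    simp only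
    have h1 : ∑ i ∈ range L, (n - 1 + 1 - σ i) + L = ∑ i ∈ range L, ((n - 1 + 1 - σ i) + 1) := by
      rw [sum_add_distrib]
      simp
    rw [h1]
    refine sum_le_sum ?_
    intro i _
    omega
  have hpred := hn2 (n - 1) (by omega)
  have hNle : N' n ≤ p + d + L := by omega
  have hpg : d ≤ p := by rw [hd]; exact Nat.div_le_self p g
  have hnbound : (L : ℝ) * n ≤ L + p + p / g + lam * (L * (L - 1) / 2) := by
    have h1 : ∑ i ∈ range L, ((n : ℝ) - (lam * i + 1)) ≤ (N' (n - 1) : ℝ) := by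
      rw [hN']
      simp only
      push_cast
      refine sum_le_sum ?_
      intro i hi
      have h2 := hσ i (mem_range.mp hi)
      rcases Nat.le_total (σ i) (n - 1 + 1) with h3 | h3
      · rw [Nat.cast_sub h3]
        have h4 : n - 1 + 1 = n := by omega
        rw [h4]
        linarith
      · have h4 : n - 1 + 1 - σ i = 0 := by omega
        rw [h4]
        have h5 : ((n - 1 + 1 : ℕ) : ℝ) ≤ σ i := by exact_mod_cast h3
        have h6 : n - 1 + 1 = n := by omega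
        rw [h6] at h5
        push_cast
        linarith
    have h2 : ∑ i ∈ range L, ((n : ℝ) - (lam * i + 1)) = L * n - L - lam * (L * (L - 1) / 2) := by
      rw [sum_sub_distrib, sum_add_distrib, ← mul_sum, sum_const, sum_const, card_range, nsmul_eq_mul,
        nsmul_eq_mul, mul_one]
      have h3 : ∑ i ∈ range L, (i : ℝ) = L * (L - 1) / 2 := by
        have h4 := Finset.sum_range_id_mul_two L
        have h5 : ((∑ i ∈ range L, i : ℕ) : ℝ) * 2 = L * (L - 1) := by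
          have h6 : (((∑ i ∈ range L, i) * 2 : ℕ) : ℝ) = ((L * (L - 1) : ℕ) : ℝ) := by rw [h4]
          push_cast [Nat.cast_sub hL] at h6
          push_cast
          exact h6
        push_cast at h5
        linarith
      rw [h3]
      ring
    have h3 : (N' (n - 1) : ℝ) + 1 ≤ p + p / g + 1 := by
      have h4 : N' (n - 1) + 1 ≤ p + d + 1 := by omega
      have h5 : ((N' (n - 1) + 1 : ℕ) : ℝ) ≤ ((p + d + 1 : ℕ) : ℝ) := by exact_mod_cast h4
      push_cast at h5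
      linarith
    linarith
  have hgR : (1 : ℝ) ≤ g := by exact_mod_cast hg1
  have hpgR : (p : ℝ) / g ≤ p := div_le_self (by positivity) hgR
  -- sizes
  have hLr' : (L : ℝ) ≤ r := by exact_mod_cast hLr
  obtain ⟨P, hPdef⟩ : ∃ P, P = κ₁ * p := ⟨_, rfl⟩
  have hnP : n + 1 ≤ (4 + ⌈θ⌉₊ * L) * p := by
    have h1 : (L : ℝ) * n ≤ L * (3 * p + θ * p * L) := by
      have h2 : lam * (L * (L - 1) / 2) ≤ θ * p * (L * L) := by
        have h3 : (L : ℝ) * (L - 1) / 2 ≤ L * L := by nlinarith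
        have h4 : 0 ≤ (L : ℝ) * (L - 1) / 2 := by
          have : 0 ≤ (L : ℝ) * (L - 1) := mul_nonneg (by linarith) (by linarith)
          linarith
        exact mul_le_mul hlamp h3 h4 (by positivity)
      have h3 : (L : ℝ) ≤ p := by exact_mod_cast hpL.le
      nlinarith
    have h2 : (n : ℝ) ≤ 3 * p + θ * p * L := le_of_mul_le_mul_left h1 (by linarith)
    have h3 : θ * p * L ≤ ⌈θ⌉₊ * p * L := by
      have := Nat.le_ceil θ
      gcongr
    have h4 : (n : ℝ) + 1 ≤ (4 + ⌈θ⌉₊ * L) * p := by nlinarith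
    exact_mod_cast h4
  obtain ⟨W, hW0, hWD, hWij⟩ := hW n
  obtain ⟨e, he1, he2, he3⟩ := main_ineq_r (q := r) (c := q) (L := L) (K := n + 1) (M := p)
    (G := (L - 1) * q + n) (N := N' n) (Kf := fun i => n + 1 - σ i) hr hrq hL hLr
    (fun i _ => Nat.sub_le _ _) (by rw [hN']) hp1 (by omega) (by
      have h1 : (L - 1) * q ≤ (L - 1) * q * r := Nat.le_mul_of_pos_right _ hr.pos
      calc (L - 1) * q + (n + 1 - 1) * r ≤ (L - 1) * q * r + n * r := by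
            rw [Nat.add_sub_cancel]
            omega
        _ = _ := by ring) hb hB0 hX hA hXA (hdvdN (n + 1)) (W := W) (H := 2 ^ L * H ^ n) hW0 hWD
    (by
      intro i hi j hj _
      have := (hWij i hi j (by omega)).1
      rwa [Nat.add_sub_cancel]) (by positivity) (by
      intro i hi j hj _
      have := (hWij i hi j (by omega)).2
      rwa [Nat.add_sub_cancel])
  have hCT := log_CT_le (q := r) (L := L) (K := n + 1) (N := N' n) (M := p) (G := (L - 1) * q + n)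
    (P := P) (ρ := g) hr2 hL (by omega) ?_ ?_ ?_ ?_ ?_ ?_ (by omega) ?_ (by positivity)
  · -- the final inequality
    have hepos : 0 < CT r L (n + 1) (N' n) p ((L - 1) * q + n) := by
      have h1 : 0 < CT r L (n + 1) (N' n) p ((L - 1) * q + n) * (2 ^ L * H ^ n) :=
        lt_of_lt_of_le (by positivity) he3
      exact (pos_iff_pos_of_mul_pos h1).mpr (by positivity)
    have hlog : (e : ℝ) * ℓ ≤ Real.log (CT r L (n + 1) (N' n) p ((L - 1) * q + n)) + (L + n * Y) := by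
      have h1 := Real.log_le_log (by positivity) he3
      rw [Real.log_mul hepos.ne' (by positivity), Real.log_mul (by positivity) (by positivity),
        Real.log_pow, Real.log_pow, Real.log_pow, ← hℓ, ← hY] at h1
      have h2 : (L : ℝ) * Real.log 2 ≤ L * 1 := by
        have := Real.log_two_lt_d9
        gcongr
        linarith
      linarith
    have hCT2 : Real.log (CT r L (n + 1) (N' n) p ((L - 1) * q + n)) ≤ C₁ * p := by
      refine hCT.trans ?_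
      have h1 : (r : ℝ) ≤ R := by exact_mod_cast hrR
      rw [hC₁, hPdef]
      push_cast
      calc (4 * (g : ℝ) + 12) * ((κ₁ : ℝ) * p * r) ≤ (4 * g + 12) * (κ₁ * p * R) := by gcongr
        _ = _ := by ring
    have heR : (p : ℝ) + 2 - p / g - 2 * L ≤ e := by
      have h1 : p + 2 ≤ e + d + 2 * L := by omega
      have h2 : ((p + 2 : ℕ) : ℝ) ≤ ((e + d + 2 * L : ℕ) : ℝ) := by exact_mod_cast h1
      push_cast at h2
      linarith
    have hfin := rel_real (L := L) (ε := ε) (p := p) (g := g) (ℓ := ℓ) (X := Y) (e := e) (n := n)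
      (C := C₁) (c := L) (θ := θ) (r := r) (lam := lam) hLR hε hpR hεg (by linarith) hP hℓ0.le hθ hrpos
      heR hnbound hY0 hcon hlam (by linarith) (by linarith)
    rw [div_le_iff₀ hε] at hℓlow
    linarith
  · rw [hPdef, hκ₁]
    refine hnP.trans (Nat.mul_le_mul_right _ (by omega))
  · rw [hPdef, hκ₁]
    exact Nat.le_mul_of_pos_left _ (by omega)
  · rw [hPdef, hκ₁]
    calc N' n ≤ 3 * p := by omega
      _ ≤ (L * κ + 4 + ⌈θ⌉₊ * L + L + 4) * p := Nat.mul_le_mul_right _ (by omega)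
      _ ≤ _ := Nat.le_mul_of_pos_left _ (by norm_num)
  · rw [hPdef, hκ₁]
    have h1 : (L - 1) * q ≤ (L * κ) * p := by
      calc (L - 1) * q ≤ L * (κ * p) := Nat.mul_le_mul (Nat.sub_le _ _) hqp
        _ = _ := by ring
    calc (L - 1) * q + n ≤ (L * κ) * p + (4 + ⌈θ⌉₊ * L) * p := by omega
      _ = (L * κ + 4 + ⌈θ⌉₊ * L) * p := by ring
      _ ≤ _ := Nat.mul_le_mul_right _ (by omega)
  · rw [hPdef, hκ₁]
    calc L ≤ 1 * p := by omega
      _ ≤ _ := Nat.mul_le_mul_right _ (by omega)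
  · rw [hPdef, hκ₁]
    have : 0 < (L * κ + 4 + ⌈θ⌉₊ * L + L + 4) * p := by positivity
    omega
  · have h1 : p + d + 1 ≤ N' n := by omega
    have h2 : ((p + d + 1 : ℕ) : ℝ) ≤ ((N' n : ℕ) : ℝ) := by exact_mod_cast h1
    have h3 : (p : ℝ) ≤ g * ((d : ℝ) + 1) := by
      have h4 := Nat.lt_div_mul_add (a := p) (show 0 < g by omega)
      rw [← hd] at h4
      have h5 : p ≤ g * (d + 1) := by
        have : g * (d + 1) = d * g + g := by ring
        omega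
      exact_mod_cast h5
    have h4 : (g : ℝ) * ((d : ℝ) + 1) ≤ g * ((N' n : ℕ) - p) := by
      apply mul_le_mul_of_nonneg_left _ (by linarith)
      push_cast at h2
      linarith
    exact h3.trans h4

end Pool.Agent.K9h9.RD
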