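import Mathlib
import Pool.Agent.K9h9.RD.Rel
import Pool.Agent.K9h9.SR.Small2
import Pool.Agent.K9h9.CB.Cons

/-!
# Roots of congruent powers modulo `D` when no prime factor of `D` is `1` modulo `r`
-/

set_option autoImplicit false

namespace Pool.Agent.K9h9.RD

open Finset Pool.Agent.K9h9.CB Pool.Agent.K9h9.SR

lemma not_dvd_totient {r D : ℕ} (hr : r.Prime) (hrD : ¬ r ∣ D)
    (hl : ∀ ℓ : ℕ, ℓ.Prime → ℓ ∣ D → ¬ r ∣ ℓ - 1) : ¬ r ∣ D.totient := by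
  intro h
  have h1 := Nat.totient_mul_prod_primeFactors D
  have h2 : r ∣ D * ∏ p ∈ D.primeFactors, (p - 1) := by
    rw [← h1]
    exact h.mul_right _
  rcases (Nat.Prime.dvd_mul hr).mp h2 with h3 | h3
  · exact hrD h3
  · obtain ⟨p, hp, hp2⟩ := (hr.prime.dvd_finsetProd_iff _).mp h3
    have := Nat.mem_primeFactors.mp hp
    exact hl p this.1 this.2.1 hp2

lemma pow_dvd_of_pow_sub {r v : ℕ} (hr : r.Prime) (hr2 : r ≠ 2) {a c : ℤ} (hc : ¬ (r : ℤ) ∣ c)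
    (hac : (r : ℤ) ∣ a - c) (h : (r : ℤ) ^ (v + 1) ∣ a ^ r - c ^ r) : (r : ℤ) ^ v ∣ a - c := by
  have hodd := hr.odd_of_ne_two hr2
  have ha : ¬ (r : ℤ) ∣ a := by
    intro h1
    apply hc
    have := dvd_sub h1 hac
    rwa [sub_sub_cancel] at this
  have h1 := Int.emultiplicity_pow_sub_pow hr hodd hac ha r
  rw [pow_dvd_iff_le_emultiplicity] at h ⊢
  have h2 : emultiplicity r r = 1 := by
    refine FiniteMultiplicity.emultiplicity_self ?_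
    exact Nat.finiteMultiplicity_iff.mpr ⟨hr.ne_one, hr.pos⟩
  rw [h1, h2] at h
  push_cast at h
  exact (ENat.add_le_add_iff_right (by simp)).mp h

lemma root_cong {r D : ℕ} (hr : r.Prime) (hr2 : r ≠ 2) (hD0 : D ≠ 0)
    (hl : ∀ ℓ : ℕ, ℓ.Prime → ℓ ∣ D → ¬ r ∣ ℓ - 1) {a c : ℤ} (hc : IsCoprime (D : ℤ) c)
    (h : (D : ℤ) ∣ a ^ r - c ^ r) :
    ∃ E : ℕ, E ∣ D ∧ D ≤ r * E ∧ D ≤ E ^ 2 ∧ (E : ℤ) ∣ a - c := by
  obtain ⟨v, D₁, hD₁, hD⟩ := Nat.exists_eq_pow_mul_and_not_dvd hD0 r hr.ne_one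
  have hD₁0 : D₁ ≠ 0 := by
    intro h0
    apply hD0
    rw [hD, h0, mul_zero]
  have hD₁D : D₁ ∣ D := ⟨r ^ v, by rw [hD, mul_comm]⟩
  have hD₁DZ : (D₁ : ℤ) ∣ D := by exact_mod_cast hD₁D
  have hrpos := hr.pos
  have h1 : (D₁ : ℤ) ∣ a - c := by
    refine dvd_sub_of_pow hr hD₁0 (not_dvd_totient hr hD₁ ?_)
      (IsCoprime.of_isCoprime_of_dvd_left hc hD₁DZ) (hD₁DZ.trans h)
    intro ℓ hℓ hℓD
    exact hl ℓ hℓ (hℓD.trans hD₁D)
  rcases Nat.eq_zero_or_pos v with hv | hv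
  · rw [hv, pow_zero, one_mul] at hD
    refine ⟨D, dvd_rfl, Nat.le_mul_of_pos_left _ hrpos, Nat.le_self_pow two_ne_zero _, ?_⟩
    rw [hD]
    exact h1
  have hrD : r ∣ D := by
    rw [hD]
    exact (dvd_pow_self r (by omega)).mul_right _
  have hrDZ : (r : ℤ) ∣ D := by exact_mod_cast hrD
  have hrc : ¬ (r : ℤ) ∣ c := by
    intro h2
    have h3 := hc.isUnit_of_dvd' hrDZ h2
    rw [Int.isUnit_iff] at h3
    have := hr.two_le
    omega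
  have hrac : (r : ℤ) ∣ a - c := by
    have e1 := fermat_dvd hr a
    have e2 := fermat_dvd hr c
    have e3 : (r : ℤ) ∣ a ^ r - c ^ r := hrDZ.trans h
    have e4 : a - c = (a ^ r - c ^ r) - (a ^ r - a) + (c ^ r - c) := by ring
    rw [e4]
    exact dvd_add (dvd_sub e3 e1) e2
  have hcopr : ∀ k : ℕ, IsCoprime ((r : ℤ) ^ k) (D₁ : ℤ) := by
    intro k
    apply IsCoprime.pow_left
    rw [Nat.isCoprime_iff_coprime]
    exact (Nat.Prime.coprime_iff_not_dvd hr).mpr hD₁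
  rcases Nat.lt_or_ge v 2 with hv2 | hv2
  · have hv1 : v = 1 := by omega
    refine ⟨D, dvd_rfl, Nat.le_mul_of_pos_left _ hrpos, Nat.le_self_pow two_ne_zero _, ?_⟩
    rw [hD, hv1]
    push_cast
    exact (hcopr 1).mul_dvd (by rw [pow_one]; exact hrac) h1
  · obtain ⟨v', rfl⟩ : ∃ v', v = v' + 2 := ⟨v - 2, by omega⟩
    have hrv : (r : ℤ) ^ (v' + 1) ∣ a - c := by
      refine pow_dvd_of_pow_sub hr hr2 hrc hrac ?_
      refine Dvd.dvd.trans ?_ h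
      rw [hD]
      push_cast
      exact dvd_mul_right _ _
    refine ⟨r ^ (v' + 1) * D₁, ?_, ?_, ?_, ?_⟩
    · rw [hD]
      exact mul_dvd_mul_right (pow_dvd_pow _ (by omega)) _
    · rw [hD]
      apply le_of_eq
      ring
    · rw [hD]
      calc r ^ (v' + 2) * D₁ = r ^ (v' + 2) * D₁ ^ 1 := by rw [pow_one]
        _ ≤ r ^ (2 * (v' + 1)) * D₁ ^ 2 :=
            Nat.mul_le_mul (Nat.pow_le_pow_right hrpos (by omega))
              (Nat.pow_le_pow_right (by omega) (by norm_num))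
        _ = _ := by ring
    · push_cast
      exact (hcopr (v' + 1)).mul_dvd hrv h1

/-- the congruence for `z` -/
lemma zcong4 {x y z p q r D u w : ℕ} (hr : r.Prime) (hD3 : 3 ≤ D) (hDx : D ∣ x) (hp : p ≠ 0)
    (hwD : Nat.Coprime w D) (heq : Eqn x y z p q r)
    (h1 : (D : ℤ) ∣ y * u ^ r - w ^ r ∨ (D : ℤ) ∣ y * u ^ r + w ^ r)
    (h2 : (r ≠ 2 ∧ ∀ ℓ : ℕ, ℓ.Prime → ℓ ∣ D → ¬ r ∣ ℓ - 1) ∨
      (D : ℤ) ∣ z * u ^ q - w ^ q ∨ (D : ℤ) ∣ z * u ^ q + w ^ q) :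
    ∃ E : ℕ, E ∣ D ∧ D ≤ r * E ∧ D ≤ E ^ 2 ∧
      ((E : ℤ) ∣ z * u ^ q - w ^ q ∨ (E : ℤ) ∣ z * u ^ q + w ^ q) := by
  rcases h2 with ⟨hr2, hl⟩ | h2
  swap
  · exact ⟨D, dvd_rfl, Nat.le_mul_of_pos_left _ hr.pos, Nat.le_self_pow two_ne_zero _, h2⟩
  have hodd : Odd r := hr.odd_of_ne_two hr2
  obtain ⟨s, t, hs, ht, hst⟩ := heq.signs
  have hDx' : (D : ℤ) ∣ (x : ℤ) ^ p := (show (D : ℤ) ∣ x by exact_mod_cast hDx).trans (dvd_pow_self _ hp)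
  obtain ⟨δ, hδ, hD1⟩ : ∃ δ : ℤ, (δ = 1 ∨ δ = -1) ∧ (D : ℤ) ∣ y * u ^ r - δ * w ^ r := by
    rcases h1 with h | h
    · exact ⟨1, Or.inl rfl, by rw [one_mul]; exact h⟩
    · refine ⟨-1, Or.inr rfl, ?_⟩
      rw [neg_one_mul, sub_neg_eq_add]
      exact h
  have hδq := pm_pow_pm hδ q
  have htδ := Pool.Agent.K9h9.SR.pm_mul ht hδq
  have hpmr : ∀ v : ℤ, (v = 1 ∨ v = -1) → v ^ r = v := by
    rintro v (rfl | rfl)
    · exact one_pow r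
    · exact hodd.neg_one_pow
  have h3 : (D : ℤ) ∣ (y * u ^ r) ^ q - (δ * w ^ r) ^ q := hD1.trans (sub_dvd_pow_sub_pow _ _ q)
  have hwDZ : IsCoprime (D : ℤ) (w : ℤ) := by
    rw [Nat.isCoprime_iff_coprime, Nat.coprime_comm]
    exact hwD
  have hcop : IsCoprime (D : ℤ) ((t * δ ^ q) * w ^ q) := by
    refine IsCoprime.mul_right ?_ hwDZ.pow_right
    rcases htδ with h | h <;> rw [h]
    · exact isCoprime_one_right
    · exact isCoprime_one_right.neg_right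
  have h4 : (D : ℤ) ∣ (z * u ^ q) ^ r - ((t * δ ^ q) * w ^ q) ^ r := by
    have h5 : ((z : ℤ) * u ^ q) ^ r - ((t * δ ^ q) * w ^ q) ^ r =
        t * ((y * u ^ r) ^ q - (δ * w ^ r) ^ q) + s * u ^ (q * r) * x ^ p := by
      have h6 : ((z : ℤ) * u ^ q) ^ r = z ^ r * u ^ (q * r) := by rw [mul_pow, ← pow_mul]
      have h7 : ((t * δ ^ q) * (w : ℤ) ^ q) ^ r = t * δ ^ q * w ^ (q * r) := by
        rw [mul_pow, hpmr _ htδ, ← pow_mul]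
      have h8 : ((y : ℤ) * u ^ r) ^ q = y ^ q * u ^ (q * r) := by
        rw [mul_pow, ← pow_mul, mul_comm r q]
      have h9 : (δ * (w : ℤ) ^ r) ^ q = δ ^ q * w ^ (q * r) := by
        rw [mul_pow, ← pow_mul, mul_comm r q]
      rw [h6, h7, h8, h9, hst]
      ring
    rw [h5]
    exact dvd_add (h3.mul_left _) (hDx'.mul_left _)
  obtain ⟨E, hE1, hE2, hE3, h5⟩ := root_cong hr hr2 (by omega) hl hcop h4
  refine ⟨E, hE1, hE2, hE3, ?_⟩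
  rcases htδ with h | h
  · left
    rw [h, one_mul] at h5
    exact h5
  · right
    rw [h, neg_one_mul, sub_neg_eq_add] at h5
    exact h5

/-- the choice of the moduli -/
lemma choose_moduli {r E : ℕ} (hr : r.Prime) (hE : E ≠ 0) :
    ∃ D' D₂ : ℕ, D₂ ∣ E ∧ D' ∣ D₂ ∧ E ≤ r ^ 2 * D' ∧
      ((D₂ = D' ∧ ¬ r ∣ D') ∨ (D₂ = r ^ 2 * D' ∧ r ∣ D')) := by
  obtain ⟨v, E₁, hE₁, hEv⟩ := Nat.exists_eq_pow_mul_and_not_dvd hE r hr.ne_one
  rcases Nat.lt_or_ge v 3 with hv | hv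
  · refine ⟨E₁, E₁, ⟨r ^ v, by rw [hEv, mul_comm]⟩, dvd_rfl, ?_, Or.inl ⟨rfl, hE₁⟩⟩
    rw [hEv]
    exact Nat.mul_le_mul_right _ (Nat.pow_le_pow_right hr.pos (by omega))
  · obtain ⟨v', rfl⟩ : ∃ v', v = v' + 3 := ⟨v - 3, by omega⟩
    have h1 : E = r ^ 2 * (r ^ (v' + 1) * E₁) := by
      rw [hEv]
      ring
    refine ⟨r ^ (v' + 1) * E₁, E, dvd_rfl, ?_, h1.le, Or.inr ⟨h1, ?_⟩⟩
    · rw [h1]
      exact dvd_mul_left _ _
    · exact (dvd_pow_self r (by omega)).mul_right _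

end Pool.Agent.K9h9.RD
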